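import Pool.Agent.Work.MP_c20ce7_bE.Rel

set_option autoImplicit false
set_option linter.unusedSectionVars false
set_option linter.unusedSimpArgs false

/-!
# BASE, source side: block S1 (helper47)
-/

open MvPolynomial

noncomputable section

namespace Pool.DM

/-- The blocks of the square of the parametrized point. -/
def YB2 (i k : Fin 8) : Matrix (Fin 2) (Fin 2) Ach := ∑ j : Fin 8, YB i j * YB j k

theorem YM_sq (a b : I0) : (YM ^ 2) a b = YB2 a.1 b.1 a.2 b.2 := by
  rw [pow_two, Matrix.mul_apply, Fintype.sum_prod_type, YB2, Matrix.sum_apply]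
  refine Finset.sum_congr rfl fun j _ => ?_
  rw [Matrix.mul_apply]
  rfl

theorem YM_four (a b : I0) : (YM ^ 4) a b = (∑ j : Fin 8, YB2 a.1 j * YB2 j b.1) a.2 b.2 := by
  have h : YM ^ 4 = YM ^ 2 * YM ^ 2 := by rw [← pow_add]
  rw [h, Matrix.mul_apply, Fintype.sum_prod_type, Matrix.sum_apply]
  refine Finset.sum_congr rfl fun j _ => ?_
  rw [Matrix.mul_apply]
  refine Finset.sum_congr rfl fun s _ => ?_
  rw [YM_sq, YM_sq]

theorem S1_30 : YB2 3 0 = (mm .p - mm .V * mm .r) * mm .a := by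
  rw [YB2, Fin.sum_univ_eight]
  simp only [YB]
  simp
  noncomm_ring

theorem S1_40 : YB2 4 0 = (mm .S * (mm .p - mm .V * mm .r) + mm .r) * mm .a := by
  rw [YB2, Fin.sum_univ_eight]
  simp only [YB]
  simp
  noncomm_ring

theorem S1_51 : YB2 5 1 = mm .u * mm .p - mm .u * mm .q * mm .B := by
  rw [YB2, Fin.sum_univ_eight]
  simp only [YB]
  simp
  noncomm_ring

theorem S1_52 : YB2 5 2 = mm .u * mm .q := by
  rw [YB2, Fin.sum_univ_eight]
  simp only [YB]
  simp
  noncomm_ring

theorem S1_61 : YB2 6 1 = mm .W * (mm .u * mm .p - mm .u * mm .q * mm .B) +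
    (mm .l).adjugate * (mm .ze * mm .r) := by
  rw [YB2, Fin.sum_univ_eight]
  simp only [YB]
  simp
  noncomm_ring

theorem S1_62 : YB2 6 2 = mm .W * (mm .u * mm .q) := by
  rw [YB2, Fin.sum_univ_eight]
  simp only [YB]
  simp
  noncomm_ring

theorem S1_73 : YB2 7 3 = (mm .u).det • (mm .ka * (1 - mm .V * mm .S)) - (mm .l).det • (mm .ze * mm .S) := by
  have h1 : mm .ka * ((mm .u).adjugate * mm .u) = (mm .u).det • mm .ka := by
    rw [Matrix.adjugate_mul, mul_smul_comm, mul_one]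
  have h2 : mm .l * (mm .l).adjugate = (mm .l).det • (1 : Matrix (Fin 2) (Fin 2) Ach) := Matrix.mul_adjugate _
  rw [YB2, Fin.sum_univ_eight]
  simp only [YB]
  simp
  have e1 : (mm .ka * (mm .u).adjugate - mm .l * mm .W) * (mm .u - mm .u * mm .V * mm .S) +
      mm .l * (mm .W * (mm .u - mm .u * mm .V * mm .S) - (mm .l).adjugate * mm .ze * mm .S) =
      mm .ka * ((mm .u).adjugate * mm .u) * (1 - mm .V * mm .S) -
        (mm .l * (mm .l).adjugate) * (mm .ze * mm .S) := by noncomm_ring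
  rw [e1, h1, h2, smul_mul_assoc, smul_mul_assoc, one_mul]

theorem S1_74 : YB2 7 4 = (mm .u).det • (mm .ka * mm .V) + (mm .l).det • mm .ze := by
  have h1 : mm .ka * ((mm .u).adjugate * mm .u) = (mm .u).det • mm .ka := by
    rw [Matrix.adjugate_mul, mul_smul_comm, mul_one]
  have h2 : mm .l * (mm .l).adjugate = (mm .l).det • (1 : Matrix (Fin 2) (Fin 2) Ach) := Matrix.mul_adjugate _
  rw [YB2, Fin.sum_univ_eight]
  simp only [YB]
  simp
  have e1 : (mm .ka * (mm .u).adjugate - mm .l * mm .W) * (mm .u * mm .V) +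
      mm .l * (mm .W * (mm .u * mm .V) + (mm .l).adjugate * mm .ze) =
      mm .ka * ((mm .u).adjugate * mm .u) * mm .V +
        (mm .l * (mm .l).adjugate) * mm .ze := by noncomm_ring
  rw [e1, h1, h2, smul_mul_assoc, smul_mul_assoc, one_mul]

theorem YB2_zero (i k : Fin 8) (h : dg0 i ≠ dg0 k + 2) : YB2 i k = 0 := by
  refine Finset.sum_eq_zero fun j _ => ?_
  by_cases h1 : dg0 i = dg0 j + 1
  · have h2 : dg0 j ≠ dg0 k + 1 := by
      intro h3
      apply h
      rw [h1, h3]
      ring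
    rw [YB_zero j k h2, mul_zero]
  · rw [YB_zero i j h1, zero_mul]

theorem S1_70 : ∑ j : Fin 8, YB2 7 j * YB2 j 0 =
    (mm .u).det • (mm .ka * mm .p * mm .a) + (mm .l).det • (mm .ze * mm .r * mm .a) := by
  have z : ∀ j : Fin 8, dg0 7 ≠ dg0 j + 2 → YB2 7 j = 0 := fun j h => YB2_zero 7 j h
  rw [Fin.sum_univ_eight, z 0 (by decide), z 1 (by decide), z 2 (by decide), z 5 (by decide), z 6 (by decide),
    z 7 (by decide)]
  simp only [zero_mul, zero_add, add_zero]
  rw [S1_73, S1_74, S1_30, S1_40]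
  simp only [sub_mul, add_mul, smul_mul_assoc]
  rw [sub_add_eq_add_sub]
  have e1 : mm .ka * (1 - mm .V * mm .S) * ((mm .p - mm .V * mm .r) * mm .a) +
      mm .ka * mm .V * ((mm .S * (mm .p - mm .V * mm .r) + mm .r) * mm .a) = mm .ka * mm .p * mm .a := by
    noncomm_ring
  have e2 : mm .ze * ((mm .S * (mm .p - mm .V * mm .r) + mm .r) * mm .a) -
      mm .ze * mm .S * ((mm .p - mm .V * mm .r) * mm .a) = mm .ze * mm .r * mm .a := by
    noncomm_ring
  rw [← e1, ← e2, smul_add, smul_sub]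
  simp only [sub_mul, add_mul, smul_mul_assoc]
  abel

/-- All minors of size two vanish. -/
def R1 {R m n : Type} [CommRing R] (M : Matrix m n R) : Prop := ∀ x y i j, M x i * M y j = M x j * M y i

theorem R1.mul_left {R k m n : Type} [CommRing R] [Fintype m] {M : Matrix m n R} (h : R1 M) (A : Matrix k m R) :
    R1 (A * M) := by
  intro x y i j
  rw [Matrix.mul_apply, Matrix.mul_apply, Matrix.mul_apply, Matrix.mul_apply, Finset.sum_mul_sum,
    Finset.sum_mul_sum]
  refine Finset.sum_congr rfl fun s _ => Finset.sum_congr rfl fun t _ => ?_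
  have := h s t i j
  linear_combination (A x s * A y t) * this

theorem R1.mul_right {R k m n : Type} [CommRing R] [Fintype n] {M : Matrix m n R} (h : R1 M) (A : Matrix n k R) :
    R1 (M * A) := by
  intro x y i j
  rw [Matrix.mul_apply, Matrix.mul_apply, Matrix.mul_apply, Matrix.mul_apply, Finset.sum_mul_sum,
    Finset.sum_mul_sum, Finset.sum_comm]
  refine Finset.sum_congr rfl fun s _ => Finset.sum_congr rfl fun t _ => ?_
  have := h x y t s
  linear_combination (A t i * A s j) * this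

theorem det_three_zero {R : Type} [CommRing R] (x : Fin 3 → Fin 2 → R) (y : Fin 2 → Fin 3 → R) :
    (Matrix.of fun i j => ∑ t, x i t * y t j).det = 0 := by
  rw [Matrix.det_fin_three]
  simp only [Matrix.of_apply, Fin.sum_univ_two]
  ring

theorem S1_gA {R : Type} [CommRing R] (P Q V S A : Matrix (Fin 2) (Fin 2) R) :
    Matrix.fromBlocks 1 (-V) S (1 - S * V) * Matrix.fromRows P Q * A =
      Matrix.fromRows ((P - V * Q) * A) ((S * (P - V * Q) + Q) * A) := by
  rw [Matrix.fromBlocks_mul_fromRows, Matrix.fromRows_mul]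
  congr 1
  · noncomm_ring
  · noncomm_ring

theorem S1_gB {R : Type} [CommRing R] (K Z V S : Matrix (Fin 2) (Fin 2) R) (du dl : R) :
    Matrix.fromCols K Z * Matrix.fromBlocks (du • (1 - V * S)) (du • V) (- dl • S) (dl • (1 : Matrix (Fin 2) (Fin 2) R)) =
      Matrix.fromCols (du • (K * (1 - V * S)) - dl • (Z * S)) (du • (K * V) + dl • Z) := by
  rw [Matrix.fromCols_mul_fromBlocks]
  congr 1
  · rw [Matrix.mul_smul, Matrix.mul_smul, neg_smul]
    exact (sub_eq_add_neg _ _).symm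
  · rw [Matrix.mul_smul, Matrix.mul_smul, mul_one]

section

variable {I : Ideal Ach}

/-- The chart matrices modulo the ideal. -/
def qm (I : Ideal Ach) (N : Bk) : Matrix (Fin 2) (Fin 2) (Ach ⧸ I) := (mm N).map (Ideal.Quotient.mk I)

theorem q_map (I : Ideal Ach) (M : Matrix (Fin 2) (Fin 2) Ach) (i j : Fin 2) :
    Ideal.Quotient.mk I (M i j) = (M.map (Ideal.Quotient.mk I)) i j := rfl

theorem q_mul (I : Ideal Ach) (M N : Matrix (Fin 2) (Fin 2) Ach) :
    (M * N).map (Ideal.Quotient.mk I) = M.map (Ideal.Quotient.mk I) * N.map (Ideal.Quotient.mk I) :=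
  Matrix.map_mul

theorem q_add (I : Ideal Ach) (M N : Matrix (Fin 2) (Fin 2) Ach) :
    (M + N).map (Ideal.Quotient.mk I) = M.map (Ideal.Quotient.mk I) + N.map (Ideal.Quotient.mk I) := by
  ext i j; simp

theorem q_sub (I : Ideal Ach) (M N : Matrix (Fin 2) (Fin 2) Ach) :
    (M - N).map (Ideal.Quotient.mk I) = M.map (Ideal.Quotient.mk I) - N.map (Ideal.Quotient.mk I) := by
  ext i j; simp

theorem q_one (I : Ideal Ach) :
    (1 : Matrix (Fin 2) (Fin 2) Ach).map (Ideal.Quotient.mk I) = 1 := by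
  ext i j
  by_cases h : i = j
  · subst h; simp
  · simp [h]

theorem q_smul (I : Ideal Ach) (c : Ach) (M : Matrix (Fin 2) (Fin 2) Ach) :
    (c • M).map (Ideal.Quotient.mk I) = Ideal.Quotient.mk I c • M.map (Ideal.Quotient.mk I) := by
  ext i j; simp

/-- Rows of degree 3 and 4, or 5 and 6. -/
def rho (N : Fin 8) (a : I0) : Fin 2 ⊕ Fin 2 := if a.1 = N then Sum.inl a.2 else Sum.inr a.2

theorem S1_A (hI : KSRel I) (f g : Fin 2 → I0) (hf : ∀ l, e0 (f l) = 3) (hg : ∀ l, e0 (g l) = 1) :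
    ((YM ^ 2).submatrix f g).det ∈ I := by
  set H : Matrix (Fin 2 ⊕ Fin 2) (Fin 2) (Ach ⧸ I) := Matrix.fromRows (qm I .p) (qm I .r) with hH
  set G : Matrix (Fin 2 ⊕ Fin 2) (Fin 2 ⊕ Fin 2) (Ach ⧸ I) :=
    Matrix.fromBlocks 1 (- qm I .V) (qm I .S) (1 - qm I .S * qm I .V) with hG
  have hR : R1 H := by
    rintro (x | x) (y | y) i j
    · have := hI.pr .p .p (Or.inl rfl) (Or.inl rfl) x y i j
      rw [← Ideal.Quotient.eq_zero_iff_mem, map_sub, map_mul, map_mul, sub_eq_zero] at this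
      exact this
    · have := hI.pr .p .r (Or.inl rfl) (Or.inr rfl) x y i j
      rw [← Ideal.Quotient.eq_zero_iff_mem, map_sub, map_mul, map_mul, sub_eq_zero] at this
      exact this
    · have := hI.pr .r .p (Or.inr rfl) (Or.inl rfl) x y i j
      rw [← Ideal.Quotient.eq_zero_iff_mem, map_sub, map_mul, map_mul, sub_eq_zero] at this
      exact this
    · have := hI.pr .r .r (Or.inr rfl) (Or.inr rfl) x y i j
      rw [← Ideal.Quotient.eq_zero_iff_mem, map_sub, map_mul, map_mul, sub_eq_zero] at this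
      exact this
  have hR2 : R1 (G * H * qm I .a) := (hR.mul_left G).mul_right _
  have hval : G * H * qm I .a = Matrix.fromRows ((qm I .p - qm I .V * qm I .r) * qm I .a)
      ((qm I .S * (qm I .p - qm I .V * qm I .r) + qm I .r) * qm I .a) := by
    rw [hG, hH]
    exact S1_gA _ _ _ _ _
  have key : ∀ a b : I0, e0 a = 3 → e0 b = 1 →
      Ideal.Quotient.mk I ((YM ^ 2) a b) = (G * H * qm I .a) (rho 3 a) b.2 := by
    rintro ⟨i, s⟩ ⟨j, t⟩ ha hb
    have hj : j = 0 := by
      revert hb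
      fin_cases j <;> simp [e0, dg0]
    subst hj
    have hi : i = 3 ∨ i = 4 := by
      revert ha
      fin_cases i <;> simp [e0, dg0]
    rw [YM_sq, hval]
    rcases hi with rfl | rfl
    · simp only [S1_30, rho, if_true, Matrix.fromRows_apply_inl]
      rw [q_map, q_mul, q_sub, q_mul]
      rfl
    · simp only [S1_40, rho]
      rw [if_neg (by decide), Matrix.fromRows_apply_inr, q_map, q_mul, q_add, q_mul, q_sub, q_mul]
      rfl
  rw [← Ideal.Quotient.eq_zero_iff_mem, Matrix.det_fin_two, map_sub, map_mul, map_mul]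
  simp only [Matrix.submatrix_apply]
  rw [key _ _ (hf 0) (hg 0), key _ _ (hf 1) (hg 1), key _ _ (hf 0) (hg 1), key _ _ (hf 1) (hg 0), sub_eq_zero]
  exact hR2 _ _ _ _

theorem S1_B (hI : KSRel I) (f g : Fin 2 → I0) (hf : ∀ l, e0 (f l) = 5) (hg : ∀ l, e0 (g l) = 3) :
    ((YM ^ 2).submatrix f g).det ∈ I := by
  set T : Matrix (Fin 2) (Fin 2 ⊕ Fin 2) (Ach ⧸ I) := Matrix.fromCols (qm I .ka) (qm I .ze) with hT
  set du : Ach ⧸ I := Ideal.Quotient.mk I (mm .u).det with hdu
  set dl : Ach ⧸ I := Ideal.Quotient.mk I (mm .l).det with hdl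
  set G : Matrix (Fin 2 ⊕ Fin 2) (Fin 2 ⊕ Fin 2) (Ach ⧸ I) :=
    Matrix.fromBlocks (du • (1 - qm I .V * qm I .S)) (du • qm I .V) (- dl • qm I .S) (dl • (1 : Matrix _ _ _)) with hG
  have hR : R1 T := by
    rintro x y (i | i) (j | j)
    · have := hI.kz .ka .ka (Or.inl rfl) (Or.inl rfl) i j x y
      rw [← Ideal.Quotient.eq_zero_iff_mem, map_sub, map_mul, map_mul, sub_eq_zero] at this
      rw [mul_comm (T x (Sum.inl j))]
      exact this
    · have := hI.kz .ka .ze (Or.inl rfl) (Or.inr rfl) i j x y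
      rw [← Ideal.Quotient.eq_zero_iff_mem, map_sub, map_mul, map_mul, sub_eq_zero] at this
      rw [mul_comm (T x (Sum.inr j))]
      exact this
    · have := hI.kz .ze .ka (Or.inr rfl) (Or.inl rfl) i j x y
      rw [← Ideal.Quotient.eq_zero_iff_mem, map_sub, map_mul, map_mul, sub_eq_zero] at this
      rw [mul_comm (T x (Sum.inl j))]
      exact this
    · have := hI.kz .ze .ze (Or.inr rfl) (Or.inr rfl) i j x y
      rw [← Ideal.Quotient.eq_zero_iff_mem, map_sub, map_mul, map_mul, sub_eq_zero] at this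
      rw [mul_comm (T x (Sum.inr j))]
      exact this
  have hR2 : R1 (T * G) := hR.mul_right _
  have hval : T * G = Matrix.fromCols
      (du • (qm I .ka * (1 - qm I .V * qm I .S)) - dl • (qm I .ze * qm I .S))
      (du • (qm I .ka * qm I .V) + dl • qm I .ze) := by
    rw [hG, hT]
    exact S1_gB _ _ _ _ _ _
  have key : ∀ a b : I0, e0 a = 5 → e0 b = 3 →
      Ideal.Quotient.mk I ((YM ^ 2) a b) = (T * G) a.2 (rho 3 b) := by
    rintro ⟨i, s⟩ ⟨j, t⟩ ha hb
    have hi : i = 7 := by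
      revert ha
      fin_cases i <;> simp [e0, dg0]
    subst hi
    have hj : j = 3 ∨ j = 4 := by
      revert hb
      fin_cases j <;> simp [e0, dg0]
    rw [YM_sq, hval]
    rcases hj with rfl | rfl
    · simp only [S1_73, rho, if_true, Matrix.fromCols_apply_inl]
      rw [q_map, q_sub, q_smul, q_smul, q_mul, q_mul, q_sub, q_one, q_mul]
      rfl
    · simp only [S1_74, rho]
      rw [if_neg (by decide), Matrix.fromCols_apply_inr, q_map, q_add, q_smul, q_smul, q_mul]
      rfl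
  rw [← Ideal.Quotient.eq_zero_iff_mem, Matrix.det_fin_two, map_sub, map_mul, map_mul]
  simp only [Matrix.submatrix_apply]
  rw [key _ _ (hf 0) (hg 0), key _ _ (hf 1) (hg 1), key _ _ (hf 0) (hg 1), key _ _ (hf 1) (hg 0), sub_eq_zero]
  exact hR2 _ _ _ _

theorem S1_C (hI : KSRel I) (f g : Fin 3 → I0) (hf : ∀ l, e0 (f l) = 4) (hg : ∀ l, e0 (g l) = 2) :
    ((YM ^ 2).submatrix f g).det ∈ I := by
  set L : Matrix (Fin 2 ⊕ Fin 2) (Fin 2) (Ach ⧸ I) := Matrix.fromRows 1 (qm I .W) with hL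
  set K : Matrix (Fin 2) (Fin 2 ⊕ Fin 2) (Ach ⧸ I) :=
    Matrix.fromCols (qm I .u * qm I .p - qm I .u * qm I .q * qm I .B) (qm I .u * qm I .q) with hK
  have hzr : (mm .ze * mm .r).map (Ideal.Quotient.mk I) = 0 := by
    ext s t
    exact Ideal.Quotient.eq_zero_iff_mem.2 (hI.zr s t)
  have hval : L * K = Matrix.fromBlocks (qm I .u * qm I .p - qm I .u * qm I .q * qm I .B) (qm I .u * qm I .q)
      (qm I .W * (qm I .u * qm I .p - qm I .u * qm I .q * qm I .B)) (qm I .W * (qm I .u * qm I .q)) := by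
    rw [hL, hK, Matrix.fromRows_mul_fromCols, one_mul, one_mul]
  have key : ∀ a b : I0, e0 a = 4 → e0 b = 2 →
      Ideal.Quotient.mk I ((YM ^ 2) a b) = (L * K) (rho 5 a) (rho 1 b) := by
    rintro ⟨i, s⟩ ⟨j, t⟩ ha hb
    have hi : i = 5 ∨ i = 6 := by
      revert ha
      fin_cases i <;> simp [e0, dg0]
    have hj : j = 1 ∨ j = 2 := by
      revert hb
      fin_cases j <;> simp [e0, dg0]
    rw [YM_sq, hval]
    rcases hi with rfl | rfl <;> rcases hj with rfl | rfl
    · simp only [S1_51, rho, if_true, Matrix.fromBlocks_apply₁₁]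
      rw [q_map, q_sub, q_mul, q_mul, q_mul]
      rfl
    · simp only [S1_52, rho, if_true]
      rw [if_neg (by decide), Matrix.fromBlocks_apply₁₂, q_map, q_mul]
      rfl
    · simp only [S1_61, rho, if_true]
      rw [if_neg (by decide), Matrix.fromBlocks_apply₂₁, q_map, q_add, q_mul, q_mul, hzr, mul_zero, add_zero, q_sub,
        q_mul, q_mul, q_mul]
      rfl
    · simp only [S1_62, rho]
      rw [if_neg (by decide), if_neg (by decide), Matrix.fromBlocks_apply₂₂, q_map, q_mul, q_mul]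
      rfl
  rw [← Ideal.Quotient.eq_zero_iff_mem, RingHom.map_det]
  have h1 : (Ideal.Quotient.mk I).mapMatrix ((YM ^ 2).submatrix f g) =
      Matrix.of fun i j => ∑ t, L (rho 5 (f i)) t * K t (rho 1 (g j)) := by
    ext i j
    rw [RingHom.mapMatrix_apply, Matrix.map_apply, Matrix.submatrix_apply, key _ _ (hf i) (hg j),
      Matrix.mul_apply]
    rfl
  rw [h1]
  exact det_three_zero (fun i t => L (rho 5 (f i)) t) (fun t j => K t (rho 1 (g j)))

theorem S1_D (hI : KSRel I) (f g : Fin 1 → I0) (hf : ∀ l, e0 (f l) = 5) (hg : ∀ l, e0 (g l) = 1) :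
    ((YM ^ 4).submatrix f g).det ∈ I := by
  have hmul : ∀ N M : Matrix (Fin 2) (Fin 2) Ach, (∀ s t, N s t ∈ I) → ∀ s t, (N * M) s t ∈ I := by
    intro N M h s t
    rw [Matrix.mul_apply]
    exact Ideal.sum_mem _ fun k _ => I.mul_mem_right _ (h s k)
  rw [Matrix.det_fin_one, Matrix.submatrix_apply, YM_four]
  have hf0 : (f 0).1 = 7 := by
    have h := hf 0
    revert h
    generalize f 0 = a
    obtain ⟨i, s⟩ := a
    fin_cases i <;> simp [e0, dg0]
  have hg0 : (g 0).1 = 0 := by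
    have h := hg 0
    revert h
    generalize g 0 = a
    obtain ⟨i, s⟩ := a
    fin_cases i <;> simp [e0, dg0]
  rw [hf0, hg0, S1_70, Matrix.add_apply, Matrix.smul_apply, Matrix.smul_apply]
  exact I.add_mem (I.mul_mem_left _ (hmul _ _ hI.kp _ _)) (I.mul_mem_left _ (hmul _ _ hI.zr _ _))

end

theorem p_S1 : Stmt_S1 := by
  intro I hI P hP
  rcases hP with ((⟨f, g, h, rfl⟩ | ⟨f, g, h, rfl⟩) | ⟨f, g, h, rfl⟩) | ⟨f, g, h, rfl⟩
  · rw [bind_minor]
    exact S1_A hI f g (fun l => by simpa using (h l).1) (fun l => (h l).2)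
  · rw [bind_minor]
    exact S1_C hI f g (fun l => by simpa using (h l).1) (fun l => (h l).2)
  · rw [bind_minor]
    exact S1_B hI f g (fun l => by simpa using (h l).1) (fun l => (h l).2)
  · rw [bind_minor]
    exact S1_D hI f g (fun l => by simpa using (h l).1) (fun l => (h l).2)

end Pool.DM
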